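import Pool.Agent.W350.Shap.Red
import Pool.Agent.H263R3.Shapiro

/-!
# Monic binary forms whose `d`-th powers sum to `k x^(de)`: primes dividing `d + c`

Let `f_1, ..., f_k` be monic complex binary forms of degree `e` with
`f_1^d + ... + f_k^d = k x^(de)`, let `p > k` be a prime and `c ≥ 1` with `p ∣ d + c`.  If all `f_i`
divide a form `x^s G` with `G ≠ 0` of degree `m` and `c m < p`, then all `f_i` are equal to `x^e`.
In particular this holds if `c e r < p`, `r` the number of different forms other than `x^e` among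
the `f_i`, and if `d < p` and `k e (p - d) < p`, for example if `d + 1` is prime and `k e ≤ d`.
-/

set_option autoImplicit false

open MvPolynomial

namespace Pool.Agent.Results.MP_b9f8e3_ag.PrimeShift

open Pool.Agent.H263R3

/-- a monic binary form of degree `e` -/
def Monic2 (e : ℕ) (f : MvPolynomial (Fin 2) ℂ) : Prop :=
  f.IsHomogeneous e ∧ coeff (Finsupp.single (0 : Fin 2) e) f = 1

theorem deh_coeff_zero (e : ℕ) (f : MvPolynomial (Fin 2) ℂ) (hf : f.IsHomogeneous e) :
    (deh f).coeff 0 = coeff (Finsupp.single (0 : Fin 2) e) f := by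
  classical
  have hdeg : ∀ m ∈ f.support, m 0 + m 1 = e := by
    intro m hm
    have := hf (mem_support_iff.1 hm)
    rw [Finsupp.weight_apply, Finsupp.sum_fintype _ _ (by simp)] at this
    simpa [Fin.sum_univ_two] using this
  rw [deh, aeval_def, eval₂_eq', Polynomial.finsetSum_coeff]
  rw [Finset.sum_eq_single (Finsupp.single (0 : Fin 2) e)]
  · simp [Fin.prod_univ_two]
  · intro m hm hne
    rw [Polynomial.algebraMap_apply, Algebra.algebraMap_self_apply, Polynomial.coeff_C_mul]
    simp only [Fin.prod_univ_two, Matrix.cons_val_zero, one_pow, one_mul, Matrix.cons_val_one,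
      Polynomial.coeff_X_pow]
    rw [if_neg, mul_zero]
    intro h1
    apply hne
    have h2 := hdeg m hm
    ext i
    fin_cases i
    · change m 0 = _
      simp
      omega
    · change m 1 = _
      simp
      omega
  · intro h
    rw [notMem_support_iff.1 h]
    simp

theorem deh_X0 : deh (X 0) = 1 := by
  simp [deh]

theorem general (p k d c e m : ℕ) (hp : p.Prime) (hc : 0 < c) (hdc : p ∣ d + c) (hk : k < p)
    (hcm : c * m < p) (f : Fin k → MvPolynomial (Fin 2) ℂ) (G : MvPolynomial (Fin 2) ℂ)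
    (hf : ∀ i, Monic2 e (f i)) (hG : G.IsHomogeneous m) (hG0 : G ≠ 0)
    (hdvd : ∀ i, ∃ s, f i ∣ X 0 ^ s * G)
    (hsum : ∑ i, f i ^ d = (k : MvPolynomial (Fin 2) ℂ) * X 0 ^ (d * e)) :
    ∀ i, f i = X 0 ^ e := by
  have hq := Pool.Agent.W350.Shap.poly p hp k d c hc hdc hk (fun i => deh (f i))
    (fun i => by rw [deh_coeff_zero e (f i) (hf i).1, (hf i).2])
    (deh G) (fun h => hG0 (deh_injective m G hG h))
    (fun i => by
      obtain ⟨s, hs⟩ := hdvd i
      obtain ⟨r, hr⟩ := hs
      refine ⟨deh r, ?_⟩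
      have := congrArg deh hr
      rw [map_mul, map_pow, deh_X0, one_pow, one_mul, map_mul] at this
      exact this)
    (lt_of_le_of_lt (Nat.mul_le_mul_left _ (natDegree_deh_le m G hG)) hcm)
    (by
      have := congrArg deh hsum
      rw [map_sum, map_mul, map_pow, deh_X0, one_pow, mul_one, map_natCast] at this
      simpa only [map_pow] using this)
  intro i
  rw [← sub_eq_zero]
  apply deh_injective e _ ((hf i).1.sub (by simpa using isHomogeneous_X_pow (R := ℂ) (0 : Fin 2) e))
  rw [map_sub, map_pow, deh_X0, one_pow, hq i, sub_self]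

/-- **Main theorem.** -/
theorem result :
    -- all forms divide `x^s G`, `G` of degree `m` with `c m < p`
    (∀ (p k d c e m : ℕ), p.Prime → 0 < c → p ∣ d + c → k < p → c * m < p →
      ∀ (f : Fin k → MvPolynomial (Fin 2) ℂ) (G : MvPolynomial (Fin 2) ℂ),
        (∀ i, Monic2 e (f i)) → G.IsHomogeneous m → G ≠ 0 → (∀ i, ∃ s, f i ∣ X 0 ^ s * G) →
        ∑ i, f i ^ d = (k : MvPolynomial (Fin 2) ℂ) * X 0 ^ (d * e) → ∀ i, f i = X 0 ^ e) ∧
    -- few different forms
    (∀ (p k d c e r : ℕ), p.Prime → 0 < c → p ∣ d + c → k < p → c * (e * r) < p →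
      ∀ (f : Fin k → MvPolynomial (Fin 2) ℂ) (S : Finset (MvPolynomial (Fin 2) ℂ)),
        S.card ≤ r → (∀ i, f i ≠ X 0 ^ e → f i ∈ S) → (∀ i, Monic2 e (f i)) →
        ∑ i, f i ^ d = (k : MvPolynomial (Fin 2) ℂ) * X 0 ^ (d * e) → ∀ i, f i = X 0 ^ e) ∧
    -- no condition on the forms
    (∀ (p k d e : ℕ), p.Prime → d < p → 0 < e → k * e * (p - d) < p →
      ∀ f : Fin k → MvPolynomial (Fin 2) ℂ, (∀ i, Monic2 e (f i)) →
        ∑ i, f i ^ d = (k : MvPolynomial (Fin 2) ℂ) * X 0 ^ (d * e) → ∀ i, f i = X 0 ^ e) := by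
  have hne : ∀ (e : ℕ) (g : MvPolynomial (Fin 2) ℂ), Monic2 e g → g ≠ 0 := by
    intro e g hg h
    have := hg.2
    rw [h, coeff_zero] at this
    exact zero_ne_one this
  refine ⟨fun p k d c e m hp hc hdc hk hcm f G hf hG hG0 hdvd hsum =>
    general p k d c e m hp hc hdc hk hcm f G hf hG hG0 hdvd hsum, ?_, ?_⟩
  · intro p k d c e r hp hc hdc hk hcr f S hS hfS hf hsum
    classical
    set T := S.filter (fun g => Monic2 e g) with hT
    have hTS : T.card ≤ r := (Finset.card_filter_le _ _).trans hS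
    refine general p k d c e (∑ g ∈ T, e) hp hc hdc hk ?_ f (∏ g ∈ T, g) hf ?_ ?_ ?_ hsum
    · refine lt_of_le_of_lt (Nat.mul_le_mul_left _ ?_) hcr
      rw [Finset.sum_const, smul_eq_mul, mul_comm]
      exact Nat.mul_le_mul_left _ hTS
    · exact IsHomogeneous.prod T (fun g => g) (fun _ => e)
        (fun g hg => (Finset.mem_filter.1 hg).2.1)
    · exact Finset.prod_ne_zero_iff.2 (fun g hg => hne e g (Finset.mem_filter.1 hg).2)
    · intro i
      refine ⟨e, ?_⟩
      by_cases h : f i = X 0 ^ e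
      · rw [h]
        exact Dvd.intro _ rfl
      · exact Dvd.dvd.mul_left (Finset.dvd_prod_of_mem (fun g => g)
          (Finset.mem_filter.2 ⟨hfS i h, hf i⟩)) _
  · intro p k d e hp hd he hke f hf hsum
    have hc : 0 < p - d := by omega
    refine general p k d (p - d) e (∑ i : Fin k, e) hp hc ?_ ?_ ?_ f (∏ i, f i) hf ?_ ?_ ?_ hsum
    · have : d + (p - d) = p := by omega
      rw [this]
    · have h1 : k ≤ k * e * (p - d) := by
        rw [mul_assoc]
        exact Nat.le_mul_of_pos_right _ (Nat.mul_pos he hc)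
      omega
    · rw [Finset.sum_const, Finset.card_univ, Fintype.card_fin, smul_eq_mul, mul_comm]
      exact hke
    · exact IsHomogeneous.prod Finset.univ f (fun _ => e) (fun i _ => (hf i).1)
    · exact Finset.prod_ne_zero_iff.2 (fun i _ => hne e _ (hf i))
    · intro i
      exact ⟨0, by
        rw [pow_zero, one_mul]
        exact Finset.dvd_prod_of_mem f (Finset.mem_univ i)⟩

end Pool.Agent.Results.MP_b9f8e3_ag.PrimeShift
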